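import Mathlib
import Pool.Agent.W751.CD.Stm

/-!
# Volume of the non-hyperbolic polynomials in coefficient space: definitions and statements

Project CV (MP_28f8a1_an). Among all monic polynomials of degree `N` with all roots in the disc with
centre `p` and radius `ρ` (`ρ ≠ 1`, and `‖p‖ ≠ 1` if `ρ < 1`) the proportion of the non-hyperbolic
ones (Lebesgue measure on the coefficients) is exponentially small in `N`.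
-/

set_option autoImplicit false

open Polynomial Filter Topology MeasureTheory
open scoped ComplexOrder

namespace Pool.Agent.W751.CV

open Pool.Agent.W751.CD

/-- squared modulus of the Vandermonde determinant -/
noncomputable def vd {N : ℕ} (z : Fin N → ℂ) : ℝ := ‖(Matrix.vandermonde z).det‖ ^ 2

/-- Lebesgue measure on the disc of radius `ρ` -/
noncomputable def mD (ρ : ℝ) : Measure ℂ := volume.restrict (Metric.closedBall (0 : ℂ) ρ)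

/-- the measure with density `vd` on the `N`-tuples of points of the disc -/
noncomputable def mu (ρ : ℝ) (N : ℕ) : Measure (Fin N → ℂ) :=
  (Measure.pi fun _ => mD ρ).withDensity fun z => ENNReal.ofReal (vd z)

/-- squared norm of `w ^ k` on the disc -/
noncomputable def hk (ρ : ℝ) (k : ℕ) : ℝ := Real.pi * ρ ^ (2 * k + 2) / (k + 1)

/-- total mass of `mu ρ N` -/
noncomputable def ZN (ρ : ℝ) (N : ℕ) : ℝ := (N.factorial : ℝ) * ∏ k ∈ Finset.range N, hk ρ k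

/-- the monic polynomial with the coefficients `a` -/
noncomputable def poly {N : ℕ} (a : Fin N → ℂ) : ℂ[X] := X ^ N + ∑ k : Fin N, C (a k) * X ^ (k : ℕ)

/-- the coefficients of the monic polynomial with roots `z` -/
noncomputable def Phi {N : ℕ} (z : Fin N → ℂ) : Fin N → ℂ := fun k => (P z).coeff k

/-- coefficient vectors of the monic polynomials with all roots in the disc -/
def Om (p : ℂ) (ρ : ℝ) (N : ℕ) : Set (Fin N → ℂ) :=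
  {a | ∀ x : ℂ, (poly a).eval x = 0 → ‖x - p‖ ≤ ρ}

/-! ### Determinants -/

/-- (AND) Andreief's identity for polynomials. -/
def S_AND : Prop := ∀ (N : ℕ) (ν : Measure ℂ) [IsFiniteMeasure ν] (B : ℝ),
  ν (Metric.closedBall (0 : ℂ) B)ᶜ = 0 → ∀ φ : Fin N → ℂ[X],
    Integrable (fun z : Fin N → ℂ => ‖(Matrix.of fun i j => (φ j).eval (z i)).det‖ ^ 2)
      (Measure.pi fun _ : Fin N => ν) ∧
    ((∫ z, ‖(Matrix.of fun i j => (φ j).eval (z i)).det‖ ^ 2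
      ∂(Measure.pi fun _ : Fin N => ν) : ℝ) : ℂ) =
      (N.factorial : ℂ) * (Matrix.of fun j k : Fin N =>
        ∫ x, (starRingEnd ℂ) ((φ j).eval x) * (φ k).eval x ∂ν).det

/-- (HAD) Hadamard's inequality for positive semidefinite matrices. -/
def S_HAD : Prop := ∀ (N : ℕ) (G : Matrix (Fin N) (Fin N) ℂ), G.PosSemidef →
  G.det.re ≤ ∏ i, (G i i).re

/-- conclusion of `S_GRAM` -/
def GRAMc : Prop := ∀ (N : ℕ) (ν : Measure ℂ) [IsFiniteMeasure ν] (B : ℝ),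
  ν (Metric.closedBall (0 : ℂ) B)ᶜ = 0 → ∀ φ : ℕ → ℂ[X],
    (∀ k, (φ k).Monic ∧ (φ k).natDegree = k) →
    ∫⁻ z, ENNReal.ofReal (vd z) ∂(Measure.pi fun _ : Fin N => ν) ≤
      (N.factorial : ENNReal) * ∏ k ∈ Finset.range N,
        ∫⁻ x, ENNReal.ofReal (‖(φ k).eval x‖ ^ 2) ∂ν

/-- (GRAM) Upper bound with trial polynomials. -/
def S_GRAM : Prop := S_AND → S_HAD → GRAMc

/-- conclusion of `S_ZN` -/
def ZNc : Prop := ∀ (ρ : ℝ) (N : ℕ), 0 < ρ → mu ρ N Set.univ = ENNReal.ofReal (ZN ρ N) ∧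
  mu ρ N {z | ¬ ∀ i, ‖z i‖ ≤ ρ} = 0

/-- (ZN) The total mass and the support. -/
def S_ZN : Prop := S_AND → ZNc

/-- (PIW) Product measures with densities. -/
def S_PIW : Prop := ∀ (N : ℕ) (ν : Measure ℂ) [IsFiniteMeasure ν] (g : ℂ → ENNReal),
  Measurable g → IsFiniteMeasure (ν.withDensity g) → ∀ F : (Fin N → ℂ) → ENNReal, Measurable F →
    ∫⁻ z, F z ∂(Measure.pi fun _ : Fin N => ν.withDensity g) =
      ∫⁻ z, (∏ i, g (z i)) * F z ∂(Measure.pi fun _ : Fin N => ν)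

/-! ### Moments -/

/-- conclusion of `S_L2` -/
def L2c : Prop := ∀ (ρ : ℝ) (N : ℕ), 0 < ρ →
  ∫⁻ z, (∫⁻ w, ENNReal.ofReal (‖(P z).eval w‖ ^ 2) ∂(mD ρ)) ∂(mu ρ N) =
    ENNReal.ofReal (Real.pi * ρ ^ (2 * N + 2) * ZN ρ N)

/-- (L2) The mean square norm. -/
def S_L2 : Prop := ZNc → L2c

/-- (SUP) Point evaluation against the mean square norm. -/
def S_SUP : Prop := ∀ (ρ r : ℝ) (N : ℕ) (F : ℂ[X]), 0 < ρ → ρ ≤ r → F.natDegree ≤ N →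
  ∀ w : ℂ, ‖w‖ ≤ r → ENNReal.ofReal (‖F.eval w‖ ^ 2) ≤
    ENNReal.ofReal (((N : ℝ) + 1) ^ 2 * (r / ρ) ^ (2 * N) / (Real.pi * ρ ^ 2)) *
      ∫⁻ x, ENNReal.ofReal (‖F.eval x‖ ^ 2) ∂(mD ρ)

/-- conclusion of `S_NEGIN` -/
def NEGINc : Prop := ∀ (ρ M : ℝ) (N : ℕ) (w : ℂ), 0 < ρ → 1 ≤ N → 1 ≤ M → ‖w‖ ≤ ρ + 1 →
  ∫⁻ z in {z : Fin N → ℂ | ∀ i, 1 / M ≤ ‖w - z i‖}, ENNReal.ofReal ((‖(P z).eval w‖ ^ 2)⁻¹)
    ∂(mu ρ N) ≤
    ENNReal.ofReal (2 * Real.log ((2 * ρ + 1) * M) * N / ρ ^ (2 * N) * ZN ρ N)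

/-- (NEGIN) Negative moment inside and near the disc. -/
def S_NEGIN : Prop := S_NU → GRAMc → S_PIW → NEGINc

/-- conclusion of `S_NEGOUT` -/
def NEGOUTc : Prop := ∀ (ρ : ℝ) (N : ℕ) (w : ℂ), 0 < ρ → 1 ≤ N → ρ < ‖w‖ →
  ∫⁻ z, ENNReal.ofReal ((‖(P z).eval w‖ ^ 2)⁻¹) ∂(mu ρ N) ≤
    ENNReal.ofReal (N / ((‖w‖ - ρ) ^ 2 * ‖w‖ ^ (2 * (N - 1))) * ZN ρ N)

/-- (NEGOUT) Negative moment outside the disc. -/
def S_NEGOUT : Prop := GRAMc → S_PIW → NEGOUTc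

/-! ### Small critical values -/

/-- (CRIT) Critical points lie in every disc containing the roots (Gauss-Lucas). -/
def S_CRIT : Prop := ∀ (N : ℕ) (p : ℂ) (ρ : ℝ) (z : Fin N → ℂ) (c : ℂ), 1 ≤ N →
  (∀ i, ‖z i - p‖ ≤ ρ) → (derivative (P z)).eval c = 0 → ‖c - p‖ ≤ ρ

/-- (SMALL) A small critical value forces a small disc of small values. -/
def S_SMALL : Prop := ∀ (ρ s R : ℝ) (N : ℕ) (z : Fin N → ℂ) (c : ℂ), 0 < ρ → 2 ≤ N → 0 < R →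
  R ≤ 2 * s → ‖c‖ ≤ ρ → (∀ w : ℂ, ‖w‖ ≤ ρ + 1 / N → ‖(P z).eval w‖ ≤ s) →
  (derivative (P z)).eval c = 0 → ‖(P z).eval c‖ ≤ R →
    ENNReal.ofReal (Real.pi * R / (2 * s * N ^ 2)) ≤
      volume {w : ℂ | ‖w‖ ≤ ρ + 1 ∧ ‖(P z).eval w‖ ≤ 2 * R}

/-- conclusion of `S_AREA` -/
def AREAc : Prop := ∀ ρ : ℝ, 1 < ρ → ∃ C : ℝ, 0 < C ∧ ∀ N : ℕ, 2 ≤ N → ∀ R : ℝ, 1 ≤ R →
  ∫⁻ z, volume {w : ℂ | ‖w‖ ≤ ρ + 1 ∧ ‖(P z).eval w‖ ≤ R} ∂(mu ρ N) ≤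
    ENNReal.ofReal (C * R ^ 2 * N ^ 2 / ρ ^ (2 * N) * ZN ρ N)

/-- (AREA) Expected area of the set of small values. -/
def S_AREA : Prop := ZNc → NEGINc → AREAc

/-- conclusion of `S_CA` -/
def CAc : Prop := ∀ ρ R : ℝ, 1 < ρ → 1 ≤ R → ∃ C θ : ℝ, 0 < C ∧ 0 < θ ∧ θ < 1 ∧
  ∀ N : ℕ, 2 ≤ N → mu ρ N {z | (∀ i, ‖z i‖ ≤ ρ) ∧ ∃ c : ℂ, (derivative (P z)).eval c = 0 ∧
    ‖(P z).eval c‖ ≤ R} ≤ ENNReal.ofReal (C * θ ^ N * ZN ρ N)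

/-- (CA) Small critical values are unlikely if `ρ > 1`. -/
def S_CA : Prop := ZNc → L2c → S_SUP → S_CRIT → S_SMALL → AREAc → CAc

/-- conclusion of `S_CB` -/
def CBc : Prop := ∀ (ρ r η : ℝ) (N : ℕ), 0 < ρ → ρ ≤ r → 0 < η →
  mu ρ N {z | ∃ w : ℂ, ‖w‖ ≤ r ∧ η < ‖(P z).eval w‖} ≤
    ENNReal.ofReal ((N + 1) ^ 2 * r ^ (2 * N) / η ^ 2 * ZN ρ N)

/-- (CB) Large values are unlikely. -/
def S_CB : Prop := L2c → S_SUP → CBc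

/-- conclusion of `S_CC` -/
def CCc : Prop := ∀ (ρ ρ₁ R : ℝ) (w : ℂ), 0 < ρ → ρ < ρ₁ → ρ₁ < 1 → 1 < ‖w‖ → 1 ≤ R →
  ∃ C θ : ℝ, 0 < C ∧ 0 < θ ∧ θ < 1 ∧ ∀ N : ℕ, 2 ≤ N →
    mu ρ N {z | ∃ u : ℂ, ‖u - w‖ ≤ ρ₁ ^ N ∧ ‖(P z).eval u‖ ≤ R} ≤
      ENNReal.ofReal (C * θ ^ N * ZN ρ N)

/-- (CC) Small values at a point of modulus larger than one are unlikely if `ρ < 1`. -/
def S_CC : Prop := ZNc → CBc → NEGOUTc → CCc

/-! ### Change of variables -/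

/-- (JAC) The Jacobian of the map from the roots to the coefficients. -/
def S_JAC : Prop := ∀ (N : ℕ) (z : Fin N → ℂ), ∃ L : (Fin N → ℂ) →L[ℝ] (Fin N → ℂ),
  HasFDerivAt (Phi : (Fin N → ℂ) → (Fin N → ℂ)) L z ∧ |L.det| = vd z

/-- conclusion of `S_COEF` -/
def COEFc : Prop := ∀ (N : ℕ) (p : ℂ) (ρ : ℝ), 0 < ρ → ∀ B : Set (Fin N → ℂ), MeasurableSet B →
  (N.factorial : ENNReal) * volume (B ∩ Om p ρ N) = mu ρ N {z | Phi (fun i => z i + p) ∈ B}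

/-- (COEF) Lebesgue measure on the coefficients in terms of the roots. -/
def S_COEF : Prop := S_JAC → COEFc

/-- (POLY) Polynomials with given roots. -/
def S_POLY : Prop :=
  (∀ (N : ℕ) (z : Fin N → ℂ), poly (Phi z) = P z) ∧
  (∀ (N : ℕ) (z : Fin N → ℂ) (p w : ℂ), (P fun i => z i + p).eval w = (P z).eval (w - p)) ∧
  (∀ (N : ℕ) (z : Fin N → ℂ) (p w : ℂ),
    (derivative (P fun i => z i + p)).eval w = (derivative (P z)).eval (w - p)) ∧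
  (∀ (N : ℕ) (p : ℂ) (ρ : ℝ) (a : Fin N → ℂ), a ∈ Om p ρ N →
    ∃ z : Fin N → ℂ, (∀ i, ‖z i - p‖ ≤ ρ) ∧ poly a = P z)

/-- (MEAS) Three measurable sets of coefficient vectors. -/
def S_MEAS : Prop := ∀ (N : ℕ) (r R η : ℝ),
  MeasurableSet {a : Fin N → ℂ | ∃ c : ℂ, ‖c‖ ≤ r ∧ (derivative (poly a)).eval c = 0 ∧
    ‖(poly a).eval c‖ ≤ R} ∧
  (∀ p : ℂ, MeasurableSet {a : Fin N → ℂ | ∃ w : ℂ, ‖w - p‖ ≤ r ∧ η < ‖(poly a).eval w‖}) ∧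
  MeasurableSet {a : Fin N → ℂ | ∃ u : ℂ, ‖u‖ ≤ r ∧ ‖(poly a).eval u‖ ≤ R}

/-! ### Dynamics -/

/-- (HA) All critical values are large. -/
def S_HA : Prop := ∀ (p : ℂ) (ρ A : ℝ), 0 < ρ → 1 ≤ A → ∃ N₀ : ℕ, ∀ N : ℕ, N₀ ≤ N →
  ∀ z : Fin N → ℂ, (∀ i, ‖z i - p‖ ≤ ρ) → ∀ α : ℂ, 1 / A ≤ ‖α‖ →
    (∀ c : ℂ, (derivative (P z)).eval c = 0 → A * (‖p‖ + ρ + 3) < ‖(P z).eval c‖) →
    Hyp (C α * P z)

/-- (HB) Everything is small on a disc containing the critical points and the origin. -/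
def S_HB : Prop := S_CRIT → ∀ (p : ℂ) (ρ δ r : ℝ) (N : ℕ), 0 < ρ → 0 < δ → ρ ≤ r → ‖p‖ + δ ≤ r → 2 ≤ N →
  ∀ z : Fin N → ℂ, (∀ i, ‖z i - p‖ ≤ ρ) → ∀ α : ℂ, α ≠ 0 →
    (∀ w : ℂ, ‖w - p‖ ≤ r → ‖α * (P z).eval w‖ ≤ δ / 4) → Hyp (C α * P z)

/-- (HC) All critical values are small and the values near the origin are large. -/
def S_HC : Prop := ∀ (p : ℂ) (ρ A : ℝ), 0 < ρ → 1 ≤ A → ∃ N₀ : ℕ, ∀ N : ℕ, N₀ ≤ N →
  ∀ z : Fin N → ℂ, (∀ i, ‖z i - p‖ ≤ ρ) → ∀ (α : ℂ) (s : ℝ), 1 / A ≤ ‖α‖ →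
    (∀ c : ℂ, (derivative (P z)).eval c = 0 → ‖α * (P z).eval c‖ ≤ s) →
    (∀ u : ℂ, ‖u‖ ≤ s → A * (‖p‖ + ρ + 3) < ‖(P z).eval u‖) → Hyp (C α * P z)

end Pool.Agent.W751.CV
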