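import Mathlib
import Pool.Agent.W751.CV.Stm

/-!
# Volume of the non-hyperbolic polynomials in coefficient space: the assembly
-/

set_option autoImplicit false

open Polynomial Filter Topology MeasureTheory

namespace Pool.Agent.W751.CV

open Pool.Agent.W751.CD

/-- the bad set of coefficient vectors -/
def BadC (p : ℂ) (ρ A : ℝ) (N : ℕ) : Set (Fin N → ℂ) :=
  {a | a ∈ Om p ρ N ∧ ∃ α : ℂ, 1 / A ≤ ‖α‖ ∧ ‖α‖ ≤ A ∧ ¬ Hyp (C α * poly a)}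

theorem vol_le (hCOEF : COEFc) (hZN : ZNc) {N : ℕ} {p : ℂ} {ρ b : ℝ} (hρ : 0 < ρ) (hb : 0 ≤ b)
    {B : Set (Fin N → ℂ)} (hB : MeasurableSet B)
    (h : mu ρ N {z | Phi (fun i => z i + p) ∈ B} ≤ ENNReal.ofReal (b * ZN ρ N)) :
    volume (B ∩ Om p ρ N) ≤ ENNReal.ofReal b * volume (Om p ρ N) := by
  have h1 := hCOEF N p ρ hρ B hB
  have h2 := hCOEF N p ρ hρ Set.univ MeasurableSet.univ
  simp only [Set.mem_univ, Set.univ_inter] at h2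
  have h3 : mu ρ N {z : Fin N → ℂ | True} = ENNReal.ofReal (ZN ρ N) := by
    have := (hZN ρ N hρ).1
    simpa using this
  rw [h3] at h2
  have hN : (N.factorial : ENNReal) ≠ 0 := by
    simp [Nat.factorial_ne_zero]
  have hN' : (N.factorial : ENNReal) ≠ ⊤ := ENNReal.natCast_ne_top _
  have h4 : (N.factorial : ENNReal) * volume (B ∩ Om p ρ N) ≤
      (N.factorial : ENNReal) * (ENNReal.ofReal b * volume (Om p ρ N)) := by
    rw [h1]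
    refine h.trans ?_
    rw [ENNReal.ofReal_mul hb, ← h2]
    apply le_of_eq
    ring
  exact (ENNReal.mul_le_mul_iff_right hN hN').1 h4

theorem ZN_pos {ρ : ℝ} (hρ : 0 < ρ) (N : ℕ) : 0 < ZN ρ N := by
  unfold ZN hk
  have := Real.pi_pos
  apply mul_pos (by exact_mod_cast Nat.factorial_pos N)
  exact Finset.prod_pos fun k _ => by positivity

theorem vol_Om (hCOEF : COEFc) (hZN : ZNc) {N : ℕ} {p : ℂ} {ρ : ℝ} (hρ : 0 < ρ) :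
    volume (Om p ρ N) ≠ 0 ∧ volume (Om p ρ N) ≠ ⊤ := by
  have h2 := hCOEF N p ρ hρ Set.univ MeasurableSet.univ
  simp only [Set.mem_univ, Set.univ_inter] at h2
  have h3 : mu ρ N {z : Fin N → ℂ | True} = ENNReal.ofReal (ZN ρ N) := by
    have := (hZN ρ N hρ).1
    simpa using this
  rw [h3] at h2
  have hZ := ZN_pos hρ N
  constructor
  · intro h0
    rw [h0, mul_zero] at h2
    exact (ENNReal.ofReal_pos.2 hZ).ne h2
  · intro h0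
    rw [h0, ENNReal.mul_top (by simp [Nat.factorial_ne_zero])] at h2
    exact ENNReal.ofReal_ne_top h2.symm

theorem of_large {p : ℂ} {ρ A : ℝ} {C θ : ℝ} (hC : 0 < C) (hθ : 0 < θ) (hθ1 : θ < 1)
    (h : ∀ᶠ N : ℕ in atTop, volume (BadC p ρ A N) ≤
      ENNReal.ofReal (C * θ ^ N) * volume (Om p ρ N)) :
    ∃ C' θ' : ℝ, 0 < C' ∧ 0 < θ' ∧ θ' < 1 ∧ ∀ N : ℕ, volume (BadC p ρ A N) ≤
      ENNReal.ofReal (C' * θ' ^ N) * volume (Om p ρ N) := by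
  obtain ⟨N₀, hN₀⟩ := eventually_atTop.1 h
  refine ⟨C + (θ ^ N₀)⁻¹, θ, by positivity, hθ, hθ1, fun N => ?_⟩
  rcases le_or_gt N₀ N with h1 | h1
  · refine (hN₀ N h1).trans ?_
    gcongr
    have : 0 < (θ ^ N₀)⁻¹ := by positivity
    linarith
  · have h2 : volume (BadC p ρ A N) ≤ volume (Om p ρ N) := measure_mono fun a ha => ha.1
    refine h2.trans (le_mul_of_one_le_left (zero_le) ?_)
    rw [← ENNReal.ofReal_one]
    apply ENNReal.ofReal_le_ofReal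
    have h3 : θ ^ N₀ ≤ θ ^ N := pow_le_pow_of_le_one hθ.le hθ1.le h1.le
    have h4 : 0 < θ ^ N₀ := by positivity
    calc (1 : ℝ) = (θ ^ N₀)⁻¹ * θ ^ N₀ := (inv_mul_cancel₀ h4.ne').symm
      _ ≤ (θ ^ N₀)⁻¹ * θ ^ N := by gcongr
      _ ≤ (C + (θ ^ N₀)⁻¹) * θ ^ N := by
          gcongr
          linarith

theorem poly_pow {r : ℝ} (hr : 0 ≤ r) (hr1 : r < 1) :
    ∀ᶠ N : ℕ in atTop, ((N : ℝ) + 1) ^ 2 * r ^ (2 * N) ≤ r ^ N := by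
  have h1 : Tendsto (fun N : ℕ => (N : ℝ) ^ 2 * r ^ N) atTop (𝓝 0) :=
    tendsto_pow_const_mul_const_pow_of_lt_one 2 hr hr1
  filter_upwards [h1.eventually_lt_const (show (0 : ℝ) < 1 / 4 by norm_num),
    eventually_ge_atTop 1] with N h2 h3
  have hN : (1 : ℝ) ≤ N := by exact_mod_cast h3
  have h4 : ((N : ℝ) + 1) ^ 2 ≤ 4 * (N : ℝ) ^ 2 := by nlinarith
  have h5 : 0 ≤ r ^ N := by positivity
  have h6 : ((N : ℝ) + 1) ^ 2 * r ^ N ≤ 1 := by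
    calc ((N : ℝ) + 1) ^ 2 * r ^ N ≤ 4 * (N : ℝ) ^ 2 * r ^ N := by gcongr
      _ = 4 * ((N : ℝ) ^ 2 * r ^ N) := by ring
      _ ≤ 1 := by linarith
  calc ((N : ℝ) + 1) ^ 2 * r ^ (2 * N) = (((N : ℝ) + 1) ^ 2 * r ^ N) * r ^ N := by
        rw [two_mul, pow_add]; ring
    _ ≤ 1 * r ^ N := by gcongr
    _ = r ^ N := one_mul _

/-- the case `ρ > 1` -/
theorem caseA (hZN : ZNc) (hCRIT : S_CRIT) (hCA : CAc) (hCOEF : COEFc) (hPOLY : S_POLY)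
    (hMEAS : S_MEAS) (hHA : S_HA) {p : ℂ} {ρ A : ℝ} (hρ : 1 < ρ) (hA : 1 ≤ A) :
    ∃ C θ : ℝ, 0 < C ∧ 0 < θ ∧ θ < 1 ∧ ∀ N : ℕ, volume (BadC p ρ A N) ≤
      ENNReal.ofReal (C * θ ^ N) * volume (Om p ρ N) := by
  have hρ0 : 0 < ρ := by linarith
  set R := A * (‖p‖ + ρ + 3) with hR
  have hp := norm_nonneg p
  have hR1 : 1 ≤ R := by nlinarith
  obtain ⟨C₀, θ, hC₀, hθ, hθ1, hca⟩ := hCA ρ R hρ hR1
  obtain ⟨N₀, hha⟩ := hHA p ρ A hρ0 hA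
  obtain ⟨hP1, hP2, hP3, hP4⟩ := hPOLY
  apply of_large hC₀ hθ hθ1
  filter_upwards [eventually_ge_atTop N₀, eventually_ge_atTop 2] with N h1 h2
  obtain ⟨hM, -, -⟩ := hMEAS N (‖p‖ + ρ) R 1
  set B := {a : Fin N → ℂ | ∃ c : ℂ, ‖c‖ ≤ ‖p‖ + ρ ∧ (derivative (poly a)).eval c = 0 ∧
    ‖(poly a).eval c‖ ≤ R} with hB
  have hsub : BadC p ρ A N ⊆ B ∩ Om p ρ N := by
    rintro a ⟨ha, α, hα1, hα2, hn⟩
    refine ⟨?_, ha⟩
    by_contra hcon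
    apply hn
    obtain ⟨z, hz, he⟩ := hP4 N p ρ a ha
    rw [he]
    refine hha N h1 z hz α hα1 fun c hc => ?_
    by_contra hb
    apply hcon
    refine ⟨c, ?_, by rw [he]; exact hc, by rw [he]; exact not_lt.1 hb⟩
    have h3 := hCRIT N p ρ z c (by omega) hz hc
    have h4 := norm_le_norm_add_norm_sub' c p
    linarith
  refine (measure_mono hsub).trans (vol_le hCOEF hZN hρ0 (by positivity) hM ?_)
  have hsub2 : {z : Fin N → ℂ | Phi (fun i => z i + p) ∈ B} ⊆ {z | ¬ ∀ i, ‖z i‖ ≤ ρ} ∪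
      {z | (∀ i, ‖z i‖ ≤ ρ) ∧ ∃ c : ℂ, (derivative (P z)).eval c = 0 ∧
        ‖(P z).eval c‖ ≤ R} := by
    rintro z ⟨c, -, hc, hcR⟩
    by_cases hz : ∀ i, ‖z i‖ ≤ ρ
    · refine Or.inr ⟨hz, c - p, ?_, ?_⟩
      · rw [hP1, hP3] at hc; exact hc
      · rw [hP1, hP2] at hcR; exact hcR
    · exact Or.inl hz
  refine (measure_mono hsub2).trans ((measure_union_le _ _).trans ?_)
  rw [(hZN ρ N hρ0).2, zero_add]
  exact hca N h2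

/-- the case `ρ < 1`, `‖p‖ < 1` -/
theorem caseB (hZN : ZNc) (hCRIT : S_CRIT) (hCB : CBc) (hCOEF : COEFc) (hPOLY : S_POLY)
    (hMEAS : S_MEAS) (hHB : S_HB) {p : ℂ} {ρ A : ℝ} (hρ0 : 0 < ρ) (hρ : ρ < 1) (hp : ‖p‖ < 1)
    (hA : 1 ≤ A) :
    ∃ C θ : ℝ, 0 < C ∧ 0 < θ ∧ θ < 1 ∧ ∀ N : ℕ, volume (BadC p ρ A N) ≤
      ENNReal.ofReal (C * θ ^ N) * volume (Om p ρ N) := by
  obtain ⟨hP1, hP2, hP3, hP4⟩ := hPOLY
  set δ := (1 - ‖p‖) / 2 with hδ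
  have hδ0 : 0 < δ := by rw [hδ]; linarith
  set r := max ρ (‖p‖ + δ) with hr
  have hr1 : r < 1 := max_lt hρ (by rw [hδ]; linarith)
  have hr0 : 0 < r := hρ0.trans_le (le_max_left _ _)
  set η := δ / (4 * A) with hη
  have hA0 : 0 < A := by linarith
  have hη0 : 0 < η := by positivity
  apply of_large (C := 1 / η ^ 2) (θ := r) (by positivity) hr0 hr1
  filter_upwards [poly_pow hr0.le hr1, eventually_ge_atTop 2] with N h1 h2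
  obtain ⟨-, hM, -⟩ := hMEAS N r 0 η
  have hM := hM p
  set B := {a : Fin N → ℂ | ∃ w : ℂ, ‖w - p‖ ≤ r ∧ η < ‖(poly a).eval w‖} with hB
  have hsub : BadC p ρ A N ⊆ B ∩ Om p ρ N := by
    rintro a ⟨ha, α, hα1, hα2, hn⟩
    refine ⟨?_, ha⟩
    by_contra hcon
    apply hn
    obtain ⟨z, hz, he⟩ := hP4 N p ρ a ha
    rw [he]
    have hα0 : α ≠ 0 := by
      rintro rfl
      rw [norm_zero] at hα1
      have : 0 < 1 / A := by positivity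
      linarith
    refine hHB hCRIT p ρ δ r N hρ0 hδ0 (le_max_left _ _) (le_max_right _ _) h2 z hz α hα0
      fun w hw => ?_
    have h3 : ‖(P z).eval w‖ ≤ η := by
      by_contra hb
      exact hcon ⟨w, hw, by rw [he]; exact not_le.1 hb⟩
    rw [norm_mul]
    calc ‖α‖ * ‖(P z).eval w‖ ≤ A * η := by gcongr
      _ = δ / 4 := by rw [hη]; field_simp
  refine (measure_mono hsub).trans (vol_le hCOEF hZN hρ0 (by positivity) hM ?_)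
  have hsub2 : {z : Fin N → ℂ | Phi (fun i => z i + p) ∈ B} ⊆
      {z | ∃ w : ℂ, ‖w‖ ≤ r ∧ η < ‖(P z).eval w‖} := by
    rintro z ⟨w, hw, hwη⟩
    rw [hP1, hP2] at hwη
    exact ⟨w - p, hw, hwη⟩
  refine (measure_mono hsub2).trans ((hCB ρ r η N hρ0 (le_max_left _ _) hη0).trans ?_)
  apply ENNReal.ofReal_le_ofReal
  have hZ : 0 ≤ ZN ρ N := by
    unfold ZN hk
    apply mul_nonneg (Nat.cast_nonneg _)
    apply Finset.prod_nonneg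
    intro k _
    have := Real.pi_pos
    positivity
  apply mul_le_mul_of_nonneg_right _ hZ
  rw [div_le_iff₀ (by positivity)]
  calc ((N : ℝ) + 1) ^ 2 * r ^ (2 * N) ≤ r ^ N := h1
    _ = 1 / η ^ 2 * r ^ N * η ^ 2 := by field_simp

/-- the case `ρ < 1 < ‖p‖` -/
theorem caseC (hZN : ZNc) (hCRIT : S_CRIT) (hCB : CBc) (hCC : CCc) (hCOEF : COEFc)
    (hPOLY : S_POLY) (hMEAS : S_MEAS) (hHC : S_HC) {p : ℂ} {ρ A : ℝ} (hρ0 : 0 < ρ) (hρ : ρ < 1)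
    (hp : 1 < ‖p‖) (hA : 1 ≤ A) :
    ∃ C θ : ℝ, 0 < C ∧ 0 < θ ∧ θ < 1 ∧ ∀ N : ℕ, volume (BadC p ρ A N) ≤
      ENNReal.ofReal (C * θ ^ N) * volume (Om p ρ N) := by
  obtain ⟨hP1, hP2, hP3, hP4⟩ := hPOLY
  have hA0 : 0 < A := by linarith
  set R := A * (‖p‖ + ρ + 3) with hR
  have hR1 : 1 ≤ R := by nlinarith
  set ρ₁ := (1 + ρ) / 2 with hρ₁
  have hρ₁1 : ρ₁ < 1 := by rw [hρ₁]; linarith
  have hρρ₁ : ρ < ρ₁ := by rw [hρ₁]; linarith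
  have hρ₁0 : 0 < ρ₁ := by linarith
  obtain ⟨C₂, θ₂, hC₂, hθ₂, hθ₂1, hcc⟩ := hCC ρ ρ₁ R (-p) hρ0 hρρ₁ hρ₁1 (by rw [norm_neg]; exact hp)
    hR1
  obtain ⟨N₀, hhc⟩ := hHC p ρ A hρ0 hA
  set q := ρ / ρ₁ with hq
  have hq0 : 0 < q := by positivity
  have hq1 : q < 1 := by rw [hq, div_lt_one hρ₁0]; exact hρρ₁
  set θ := max q θ₂ with hθ
  have hθ0 : 0 < θ := hq0.trans_le (le_max_left _ _)
  have hθ1 : θ < 1 := max_lt hq1 hθ₂1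
  apply of_large (C := A ^ 2 + C₂) (θ := θ) (by positivity) hθ0 hθ1
  filter_upwards [poly_pow hq0.le hq1, eventually_ge_atTop 2, eventually_ge_atTop N₀] with N h1 h2 h3
  set η := ρ₁ ^ N / A with hη
  have hη0 : 0 < η := by positivity
  obtain ⟨-, hM, -⟩ := hMEAS N ρ 0 η
  have hM := hM p
  obtain ⟨-, -, hM2⟩ := hMEAS N (ρ₁ ^ N) R 0
  set B₁ := {a : Fin N → ℂ | ∃ w : ℂ, ‖w - p‖ ≤ ρ ∧ η < ‖(poly a).eval w‖} with hB₁
  set B₂ := {a : Fin N → ℂ | ∃ u : ℂ, ‖u‖ ≤ ρ₁ ^ N ∧ ‖(poly a).eval u‖ ≤ R} with hB₂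
  have hsub : BadC p ρ A N ⊆ (B₁ ∪ B₂) ∩ Om p ρ N := by
    rintro a ⟨ha, α, hα1, hα2, hn⟩
    refine ⟨?_, ha⟩
    by_contra hcon
    apply hn
    obtain ⟨z, hz, he⟩ := hP4 N p ρ a ha
    rw [he]
    refine hhc N h3 z hz α (ρ₁ ^ N) hα1 (fun c hc => ?_) (fun u hu => ?_)
    · have h4 := hCRIT N p ρ z c (by omega) hz hc
      have h5 : ‖(P z).eval c‖ ≤ η := by
        by_contra hb
        exact hcon (Or.inl ⟨c, h4, by rw [he]; exact not_le.1 hb⟩)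
      rw [norm_mul]
      calc ‖α‖ * ‖(P z).eval c‖ ≤ A * η := by gcongr
        _ = ρ₁ ^ N := by rw [hη]; field_simp
    · by_contra hb
      exact hcon (Or.inr ⟨u, hu, by rw [he]; exact not_lt.1 hb⟩)
  refine (measure_mono hsub).trans (vol_le hCOEF hZN hρ0 (by positivity) (hM.union hM2) ?_)
  have hsub2 : {z : Fin N → ℂ | Phi (fun i => z i + p) ∈ B₁ ∪ B₂} ⊆
      {z | ∃ w : ℂ, ‖w‖ ≤ ρ ∧ η < ‖(P z).eval w‖} ∪
      {z | ∃ u : ℂ, ‖u - -p‖ ≤ ρ₁ ^ N ∧ ‖(P z).eval u‖ ≤ R} := by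
    rintro z (⟨w, hw, hwη⟩ | ⟨u, hu, huR⟩)
    · rw [hP1, hP2] at hwη
      exact Or.inl ⟨w - p, hw, hwη⟩
    · rw [hP1, hP2] at huR
      exact Or.inr ⟨u - p, by simpa using hu, huR⟩
  have hZ : 0 ≤ ZN ρ N := by
    unfold ZN hk
    apply mul_nonneg (Nat.cast_nonneg _)
    apply Finset.prod_nonneg
    intro k _
    have := Real.pi_pos
    positivity
  have hb1 : mu ρ N {z | ∃ w : ℂ, ‖w‖ ≤ ρ ∧ η < ‖(P z).eval w‖} ≤
      ENNReal.ofReal (A ^ 2 * θ ^ N * ZN ρ N) := by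
    refine (hCB ρ ρ η N hρ0 le_rfl hη0).trans (ENNReal.ofReal_le_ofReal ?_)
    apply mul_le_mul_of_nonneg_right _ hZ
    have e1 : ((N : ℝ) + 1) ^ 2 * ρ ^ (2 * N) / η ^ 2 = A ^ 2 * (((N : ℝ) + 1) ^ 2 * q ^ (2 * N)) := by
      have e2 : η ^ 2 = ρ₁ ^ (2 * N) / A ^ 2 := by
        rw [hη, div_pow (ρ₁ ^ N) A 2, ← pow_mul, mul_comm N 2]
      have e3 : q ^ (2 * N) = ρ ^ (2 * N) / ρ₁ ^ (2 * N) := by rw [hq, div_pow ρ ρ₁ (2 * N)]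
      have e4 : ρ₁ ^ (2 * N) ≠ 0 := by positivity
      rw [e2, e3]
      generalize ρ₁ ^ (2 * N) = x at e4
      field_simp
    rw [e1]
    have h6 : q ^ N ≤ θ ^ N := pow_le_pow_left₀ hq0.le (le_max_left _ _) N
    gcongr
    linarith
  have hb2 : mu ρ N {z | ∃ u : ℂ, ‖u - -p‖ ≤ ρ₁ ^ N ∧ ‖(P z).eval u‖ ≤ R} ≤
      ENNReal.ofReal (C₂ * θ ^ N * ZN ρ N) := by
    refine (hcc N h2).trans (ENNReal.ofReal_le_ofReal ?_)
    apply mul_le_mul_of_nonneg_right _ hZ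
    have h6 : θ₂ ^ N ≤ θ ^ N := pow_le_pow_left₀ hθ₂.le (le_max_right _ _) N
    gcongr
  refine (measure_mono hsub2).trans ((measure_union_le _ _).trans ((add_le_add hb1 hb2).trans ?_))
  rw [← ENNReal.ofReal_add (by positivity) (by positivity)]
  apply ENNReal.ofReal_le_ofReal
  apply le_of_eq
  ring

/-- the main theorem -/
theorem main (hZN : ZNc) (hCRIT : S_CRIT) (hCA : CAc) (hCB : CBc) (hCC : CCc) (hCOEF : COEFc)
    (hPOLY : S_POLY) (hMEAS : S_MEAS) (hHA : S_HA) (hHB : S_HB) (hHC : S_HC) {p : ℂ} {ρ A : ℝ}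
    (hρ0 : 0 < ρ) (hρ : ρ ≠ 1) (hp : ρ < 1 → ‖p‖ ≠ 1) (hA : 1 ≤ A) :
    ∃ C θ : ℝ, 0 < C ∧ 0 < θ ∧ θ < 1 ∧ ∀ N : ℕ, volume (BadC p ρ A N) ≤
      ENNReal.ofReal (C * θ ^ N) * volume (Om p ρ N) := by
  rcases lt_or_gt_of_ne hρ with h1 | h1
  · rcases lt_or_gt_of_ne (hp h1) with h2 | h2
    · exact caseB hZN hCRIT hCB hCOEF hPOLY hMEAS hHB hρ0 h1 h2 hA
    · exact caseC hZN hCRIT hCB hCC hCOEF hPOLY hMEAS hHC hρ0 h1 h2 hA
  · exact caseA hZN hCRIT hCA hCOEF hPOLY hMEAS hHA h1 hA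

end Pool.Agent.W751.CV
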